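import Pool.Agent.N272.DLR.Rob

/-!
# A weak cop win graph with the double long return property

The graph consists of a ray `c 0, c 1, c 2, …` and, for all `k` and `N`, a path
`p k 0 N, p k 1 (N - 1), …, p k N 0` all whose vertices are adjacent to `c k` and to another vertex
`t k N`; the two ends of this path are also adjacent to `c (k + 1)` and to `c (k + 2)`.

The cop goes along the ray; when he is at `c k` and the robber is at `t k N`, he goes to the end
`p k 0 N` and then along the path, and goes back to `c k` when the robber leaves to `c (k + 1)` or
`c (k + 2)`. In this way the robber is never again at or before `c k`.

The robber waits at `c (J + 2)` until the cop comes near `c J`, and then enters a long path with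
root `c J`, where he can be driven out, to `c (J + 2)`, only if the cop walks along half of the
path; the cop is then two steps away from `c (J + 2)`, and the robber does the same once more on a
long path with root `c (J + 1)`. Then he runs away along the ray.
-/

set_option autoImplicit false

namespace Pool.Agent.Results.MP_70f359_co.DoubleReturnGraph

open Pool.Agent.N272.DLR

/-- There is a connected graph which is a weak cop win and has the double long return property. -/
theorem result : ∃ (V : Type) (G : SimpleGraph V), G.Connected ∧ WeakCopWin G ∧
    DoubleLongReturn G :=
  ⟨W, G, connected, weakCopWin, doubleLongReturn⟩

end Pool.Agent.Results.MP_70f359_co.DoubleReturnGraph
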